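import Pool.Agent.RW114.Assembly
import Pool.Agent.RW114.Trans
import Pool.Agent.RW114.TaskE
import Pool.Agent.RW114.TaskSuper
import Pool.Agent.RW114.TaskOdo
import Pool.Agent.RW114.TaskAcyc
import Pool.Agent.RW114.TaskInj
import Pool.Agent.RW114.TaskCoc
import Pool.Agent.RW114.TaskMono
import Pool.Agent.RW114.TaskLocal
import Pool.Agent.RW114.TaskLow
import Pool.Agent.RW114.TaskPer
import Pool.Agent.RW114.TaskMax
import Pool.Agent.RW114.TaskMean
import Pool.Agent.RW114.TaskFin
import Pool.Agent.RW114.TaskWalk
import Pool.Agent.RW114.TaskLim
import Pool.Agent.RW114.TaskBall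
import Pool.Agent.RW114.TaskForest
import Pool.Agent.RW114.TaskWeak

set_option autoImplicit false

/-!
# MP_42a48c_pr: the almost sure Schramm bound for rotor walks on transient graphs

For every transient graph, all mechanisms and every start vertex, the occupation rates of the rotor
walk with initial configuration sampled from the oriented wired uniform spanning forest are almost
surely at most the Green function.
-/

open scoped ENNReal
open MeasureTheory Filter

namespace Pool.Agent.Results.MP_42a48c_pr.SchrammBound

open Pool.Agent.RW114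

/-- Let `G` be a connected, locally finite, infinite simple graph on which simple random walk is
transient, `τ` any mechanism with a single orbit at each vertex, `a` a vertex, and `μ` the oriented
wired uniform spanning forest measure. Then for `μ`-almost every rotor configuration `ρ`, for every
vertex `x`, `limsup S_n(ρ, x) / n` is at most the Green function at `x`. -/
theorem result :
    ∀ (V : Type) (G : SimpleGraph V) [G.LocallyFinite], G.Connected → Infinite V →
      ∀ (τ : ∀ x, Equiv.Perm (G.neighborSet x)), SingleOrbit G τ → ∀ a : V,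
        (Summable fun t => prob G a t a) →
        ∀ μ : Measure (Conf G), IsProbabilityMeasure μ → IsOWUSF G a μ →
          ∀ᵐ ρ ∂μ, ∀ x : V,
            limsup (fun n : ℕ => S G τ a n ρ x / n) atTop ≤ ENNReal.ofReal (green G a x) := by
  intro V G _ hG hV τ hτ a ha μ hμ hO
  have hE : TaskE := Pool.Agent.RW114.TaskE.main
  have hOdo : TaskOdo := Pool.Agent.RW114.TaskOdo.main hE
  have hMono : TaskMono := Pool.Agent.RW114.TaskMono.main hE
  have hSuper : TaskSuper := Pool.Agent.RW114.TaskSuper.main hE
  have hBall : TaskBall := Pool.Agent.RW114.TaskBall.main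
  have hAcyc : TaskAcyc := Pool.Agent.RW114.TaskAcyc.main hOdo
  have hInj : TaskInj := Pool.Agent.RW114.TaskInj.main hE
  have hCoc : TaskCoc := Pool.Agent.RW114.TaskCoc.main hE
  have hPer : TaskPer := Pool.Agent.RW114.TaskPer.main hE
  have hMean : TaskMean := Pool.Agent.RW114.TaskMean.main hE hSuper hOdo hAcyc hInj hCoc hPer
  have hLow : TaskLow := Pool.Agent.RW114.TaskLow.main hE
  have hFin : TaskFin := Pool.Agent.RW114.TaskFin.main hSuper hOdo hBall hLow
    Pool.Agent.RW114.TaskMax.main hMean
  have hForest : TaskForest := Pool.Agent.RW114.TaskForest.main hBall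
  exact Pool.Agent.RW114.Assembly.final hSuper hMono Pool.Agent.RW114.TaskLocal.main hFin
    (Pool.Agent.RW114.TaskWalk.main hE) (Pool.Agent.RW114.TaskLim.main hE) hBall
    (Pool.Agent.RW114.TaskWeak.main hBall hForest) V G hG hV τ hτ a
    (Pool.Agent.RW114.Trans.summable_all G hG a ha) μ hμ hO

end Pool.Agent.Results.MP_42a48c_pr.SchrammBound
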